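import Mathlib

set_option autoImplicit false

namespace Pool.Agent.H870R2.LA

open Ideal IsLocalRing

section CM

variable {R : Type} [CommRing R]

/-- Regular sequences modulo an ideal. -/
def Reg : Ideal R → List R → Prop
  | _, [] => True
  | J, a :: l => (∀ r, a * r ∈ J → r ∈ J) ∧ Reg (J ⊔ span {a}) l

theorem reg_append (J : Ideal R) (l l' : List R) :
    Reg J (l ++ l') ↔ Reg J l ∧ Reg (J ⊔ ofList l) l' := by
  induction l generalizing J with
  | nil => simp [Reg]
  | cons a l ih =>
    simp only [List.cons_append, Reg, ih, ofList_cons, sup_assoc, and_assoc]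

variable [IsLocalRing R] [IsNoetherianRing R]

theorem reg_swap {J : Ideal R} {a b : R} (ha : a ∈ maximalIdeal R)
    (h1 : ∀ r, a * r ∈ J → r ∈ J) (h2 : ∀ r, b * r ∈ J ⊔ span {a} → r ∈ J ⊔ span {a}) :
    (∀ r, b * r ∈ J → r ∈ J) ∧ (∀ r, a * r ∈ J ⊔ span {b} → r ∈ J ⊔ span {b}) := by
  constructor
  · let N : Ideal R :=
      { carrier := {r | b * r ∈ J}
        add_mem' := fun {x y} hx hy => by
          show b * (x + y) ∈ J
          rw [mul_add]; exact J.add_mem hx hy
        zero_mem' := by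
          show b * 0 ∈ J
          rw [mul_zero]; exact J.zero_mem
        smul_mem' := fun c x hx => by
          show b * (c * x) ∈ J
          rw [mul_left_comm]; exact J.mul_mem_left c hx }
    have hN : N ≤ J := by
      refine Submodule.le_of_le_smul_of_le_jacobson_bot (I := maximalIdeal R)
        (IsNoetherian.noetherian N) (maximalIdeal_le_jacobson _) ?_
      intro r hr
      have hr' : b * r ∈ J := hr
      obtain ⟨j, hj, s, hs, hjs⟩ := Submodule.mem_sup.1 (h2 r (le_sup_left (a := J) hr'))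
      obtain ⟨t, rfl⟩ := Ideal.mem_span_singleton'.1 hs
      have h3 : b * t ∈ J := by
        apply h1
        have : a * (b * t) = b * r - b * j := by rw [← hjs]; ring
        rw [this]
        exact J.sub_mem hr' (J.mul_mem_left _ hj)
      rw [← hjs]
      refine Submodule.add_mem_sup hj ?_
      rw [mul_comm]
      exact Submodule.smul_mem_smul ha h3
    exact fun r hr => hN hr
  · intro r hr
    obtain ⟨j, hj, s, hs, hjs⟩ := Submodule.mem_sup.1 hr
    obtain ⟨t, rfl⟩ := Ideal.mem_span_singleton'.1 hs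
    have h3 : b * t ∈ J ⊔ span {a} := by
      have : b * t = -j + r * a := by linear_combination hjs
      rw [this]
      exact Submodule.add_mem_sup (J.neg_mem hj) (Ideal.mem_span_singleton'.2 ⟨r, rfl⟩)
    obtain ⟨j', hj', s', hs', hjs'⟩ := Submodule.mem_sup.1 (h2 t h3)
    obtain ⟨t', rfl⟩ := Ideal.mem_span_singleton'.1 hs'
    have h4 : a * (r - b * t') ∈ J := by
      have : a * (r - b * t') = j + b * j' := by
        linear_combination -hjs - b * hjs'
      rw [this]
      exact J.add_mem hj (J.mul_mem_left _ hj')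
    have h5 := h1 _ h4
    have : r = (r - b * t') + t' * b := by ring
    rw [this]
    exact Submodule.add_mem_sup h5 (Ideal.mem_span_singleton'.2 ⟨t', rfl⟩)

theorem reg_rotate {J : Ideal R} {z : R} (hz : z ∈ maximalIdeal R) (l : List R)
    (hl : ∀ a ∈ l, a ∈ maximalIdeal R) : Reg J (l ++ [z]) ↔ Reg J (z :: l) := by
  induction l generalizing J with
  | nil => rfl
  | cons a l ih =>
    have ih' := ih (J := J ⊔ span {a}) (fun x hx => hl x (List.mem_cons_of_mem _ hx))
    have ha := hl a List.mem_cons_self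
    have e : J ⊔ span {a} ⊔ span {z} = J ⊔ span {z} ⊔ span {a} := sup_right_comm _ _ _
    simp only [List.cons_append, Reg] at ih' ⊢
    rw [ih']
    constructor
    · rintro ⟨h1, h2, h3⟩
      obtain ⟨h4, h5⟩ := reg_swap ha h1 h2
      exact ⟨h4, h5, e ▸ h3⟩
    · rintro ⟨h1, h2, h3⟩
      obtain ⟨h4, h5⟩ := reg_swap hz h1 h2
      exact ⟨h4, h5, e ▸ h3⟩

/-- `K` contains a power of the maximal ideal. -/
def Prim (K : Ideal R) : Prop := ∃ k, maximalIdeal R ^ k ≤ K

omit [IsNoetherianRing R] in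
theorem Prim.mono {K L : Ideal R} (h : Prim K) (hKL : K ≤ L) : Prim L := by
  obtain ⟨k, hk⟩ := h
  exact ⟨k, hk.trans hKL⟩

omit [IsNoetherianRing R] in
theorem nzd_of_prim {K : Ideal R} {x y : R} (hx : x ∈ maximalIdeal R)
    (h : ∀ r, x * r ∈ K → r ∈ K) (hP : Prim (K ⊔ span {y})) : ∀ r, y * r ∈ K → r ∈ K := by
  intro r hr
  obtain ⟨k, hk⟩ := hP
  obtain ⟨j, hj, s, hs, hjs⟩ := Submodule.mem_sup.1 (hk (Ideal.pow_mem_pow hx k))
  obtain ⟨t, rfl⟩ := Ideal.mem_span_singleton'.1 hs
  have h1 : x ^ k * r ∈ K := by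
    rw [← hjs]
    have : (j + t * y) * r = r * j + t * (y * r) := by ring
    rw [this]
    exact K.add_mem (K.mul_mem_left _ hj) (K.mul_mem_left _ hr)
  clear hjs hk
  induction k with
  | zero => simpa using h1
  | succ k ih =>
    apply ih
    apply h
    rw [← mul_assoc, ← pow_succ']
    exact h1

theorem prim_of_primes {K : Ideal R} (h : ∀ Q : Ideal R, Q.IsPrime → K ≤ Q → Q = maximalIdeal R) :
    Prim K := by
  refine Ideal.exists_pow_le_of_le_radical_of_fg ?_ (IsNoetherian.noetherian _)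
  rw [Ideal.radical_eq_sInf]
  refine le_sInf ?_
  rintro Q ⟨hQ1, hQ2⟩
  exact (h Q hQ2 hQ1).ge

theorem eq_max_of_prim {K Q : Ideal R} (hK : Prim K) (hQ : Q.IsPrime) (h : K ≤ Q) :
    Q = maximalIdeal R := by
  obtain ⟨k, hk⟩ := hK
  refine le_antisymm (le_maximalIdeal hQ.ne_top) ?_
  exact hQ.le_of_pow_le (hk.trans h)

variable [Algebra ℂ R]

/-- General position. -/
theorem generic {K : Ideal R} {a b : R} (ha : a ∈ maximalIdeal R) (hb : b ∈ maximalIdeal R)
    (h : Prim (K ⊔ span {a}) ∨ Prim (K ⊔ span {b})) :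
    {c : ℂ | ¬ Prim (K ⊔ span {a + c • b})}.Finite := by
  classical
  have hfin : K.minimalPrimes.Finite := Ideal.finite_minimalPrimes_of_isNoetherianRing R K
  have key : ∀ P ∈ K.minimalPrimes, P ≠ maximalIdeal R → {c : ℂ | a + c • b ∈ P}.Subsingleton := by
    intro P hP hPm c hc d hd
    by_contra hcd
    have hPp : P.IsPrime := hP.isPrime
    have h1 : (c - d) • b ∈ P := by
      have : (c - d) • b = (a + c • b) - (a + d • b) := by rw [sub_smul]; ring
      rw [this]
      exact P.sub_mem hc hd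
    have h2 : b ∈ P := by
      have h3 : (algebraMap ℂ R (c - d)⁻¹) * ((c - d) • b) ∈ P := P.mul_mem_left _ h1
      rwa [← Algebra.smul_def, smul_smul, inv_mul_cancel₀ (sub_ne_zero.2 hcd), one_smul] at h3
    have h3 : a ∈ P := by
      have h4 : c • b ∈ P := by rw [Algebra.smul_def]; exact P.mul_mem_left _ h2
      have : a = (a + c • b) - c • b := by ring
      rw [this]
      exact P.sub_mem hc h4
    have hKP : K ≤ P := hP.le
    apply hPm
    rcases h with h | h
    · exact eq_max_of_prim h hPp (sup_le hKP ((Ideal.span_singleton_le_iff_mem _).2 h3))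
    · exact eq_max_of_prim h hPp (sup_le hKP ((Ideal.span_singleton_le_iff_mem _).2 h2))
  have hbad : (⋃ P ∈ {P ∈ K.minimalPrimes | P ≠ maximalIdeal R}, {c : ℂ | a + c • b ∈ P}).Finite := by
    refine Set.Finite.biUnion (hfin.subset fun P hP => hP.1) ?_
    rintro P ⟨hP, hPm⟩
    exact (key P hP hPm).finite
  refine hbad.subset ?_
  intro c hc
  by_contra hcon
  apply hc
  have hcon' : ∀ P ∈ K.minimalPrimes, P ≠ maximalIdeal R → a + c • b ∉ P := by
    intro P hP hPm hmem
    apply hcon
    simp only [Set.mem_iUnion]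
    exact ⟨P, ⟨hP, hPm⟩, hmem⟩
  apply prim_of_primes
  intro Q hQ hKQ
  by_contra hQm
  have hKQ1 : K ≤ Q := le_sup_left.trans hKQ
  obtain ⟨P, hP, hPQ⟩ := Ideal.exists_minimalPrimes_le hKQ1
  have hPp : P.IsPrime := hP.isPrime
  have hQle : Q ≤ maximalIdeal R := le_maximalIdeal hQ.ne_top
  have hPm : P ≠ maximalIdeal R := by
    rintro rfl
    exact hQm (le_antisymm hQle hPQ)
  have huQ : a + c • b ∈ Q := hKQ (le_sup_right (a := K) (Ideal.mem_span_singleton_self _))
  have hPneQ : P ≠ Q := by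
    rintro rfl
    exact hcon' P hP hPm huQ
  -- the maximal ideal is minimal over `P ⊔ (w)`
  obtain ⟨w, hw⟩ : ∃ w ∈ maximalIdeal R, Prim (K ⊔ span {w}) := by
    rcases h with h | h
    · exact ⟨a, ha, h⟩
    · exact ⟨b, hb, h⟩
  have hmin : maximalIdeal R ∈ (P ⊔ span {w}).minimalPrimes := by
    refine ⟨⟨(maximalIdeal.isMaximal R).isPrime, sup_le (hPQ.trans hQle)
      ((Ideal.span_singleton_le_iff_mem _).2 hw.1)⟩, ?_⟩
    rintro Q' ⟨hQ'1, hQ'2⟩ _
    have : K ⊔ span {w} ≤ Q' := (sup_le_sup_right hP.le _).trans hQ'2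
    exact (eq_max_of_prim hw.2 hQ'1 this).ge
  have hht := Ideal.map_height_le_one_of_mem_minimalPrimes hmin
  -- chain of primes in `R ⧸ P`
  let π := Ideal.Quotient.mk P
  have hker : ∀ I : Ideal R, P ≤ I → (I.map π).comap π = I := by
    intro I hI
    rw [Ideal.comap_map_of_surjective _ Ideal.Quotient.mk_surjective]
    refine sup_eq_left.2 ?_
    intro x hx
    have : x ∈ P := by
      have h1 : π x ∈ (⊥ : Ideal (R ⧸ P)) := hx
      exact Ideal.Quotient.eq_zero_iff_mem.1 (by simpa using h1)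
    exact hI this
  have hprime : ∀ I : Ideal R, I.IsPrime → P ≤ I → (I.map π).IsPrime := by
    intro I hI hPI
    exact Ideal.map_isPrime_of_surjective Ideal.Quotient.mk_surjective (by rwa [Ideal.mk_ker])
  have hlt : ∀ I I' : Ideal R, P ≤ I → I < I' → I.map π < I'.map π := by
    intro I I' hPI hII'
    refine lt_of_le_of_ne (Ideal.map_mono hII'.le) ?_
    intro he
    have := congrArg (Ideal.comap π) he
    rw [hker I hPI, hker I' (hPI.trans hII'.le)] at this
    exact hII'.ne this
  have h0 : (P.map π).IsPrime := hprime P hPp le_rfl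
  have h1 : (Q.map π).IsPrime := hprime Q hQ hPQ
  have h2 : ((maximalIdeal R).map π).IsPrime :=
    hprime _ (maximalIdeal.isMaximal R).isPrime (hPQ.trans hQle)
  have l1 : P.map π < Q.map π := hlt _ _ le_rfl (lt_of_le_of_ne hPQ hPneQ)
  have l2 : Q.map π < (maximalIdeal R).map π := hlt _ _ hPQ (lt_of_le_of_ne hQle hQm)
  have hh1 : 1 ≤ (Q.map π).height := by
    have := Ideal.height_add_one_le_of_lt_of_isPrime l1
    exact le_trans (by simp) this
  have hh2 : (Q.map π).height + 1 ≤ ((maximalIdeal R).map π).height :=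
    Ideal.height_add_one_le_of_lt_of_isPrime l2
  have : (2 : ℕ∞) ≤ 1 := by
    calc (2 : ℕ∞) = 1 + 1 := by norm_num
      _ ≤ (Q.map π).height + 1 := by gcongr
      _ ≤ ((maximalIdeal R).map π).height := hh2
      _ ≤ 1 := hht
  exact absurd this (by norm_num)

end CM

end Pool.Agent.H870R2.LA
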