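import Pool.Agent.H870R2.LocAlgA

set_option autoImplicit false

namespace Pool.Agent.H870R2.LA

open Ideal IsLocalRing

theorem trace_exact {V' V V'' : Type} [AddCommGroup V'] [AddCommGroup V] [AddCommGroup V'']
    [Module ℂ V'] [Module ℂ V] [Module ℂ V''] [Module.Finite ℂ V'] [Module.Finite ℂ V]
    [Module.Finite ℂ V''] (i : V' →ₗ[ℂ] V) (p : V →ₗ[ℂ] V'') (hi : Function.Injective i)
    (hp : Function.Surjective p) (hex : ∀ v, p v = 0 ↔ ∃ w, i w = v)
    (T' : V' →ₗ[ℂ] V') (T : V →ₗ[ℂ] V) (T'' : V'' →ₗ[ℂ] V'')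
    (h1 : ∀ w, T (i w) = i (T' w)) (h2 : ∀ v, p (T v) = T'' (p v)) :
    LinearMap.trace ℂ V T = LinearMap.trace ℂ V' T' + LinearMap.trace ℂ V'' T'' := by
  obtain ⟨r, hr⟩ := LinearMap.exists_leftInverse_of_injective i (LinearMap.ker_eq_bot.2 hi)
  obtain ⟨s0, hs0⟩ := LinearMap.exists_rightInverse_of_surjective p (LinearMap.range_eq_top.2 hp)
  have hr' : ∀ w, r (i w) = w := fun w => LinearMap.congr_fun hr w
  have hs0' : ∀ w, p (s0 w) = w := fun w => LinearMap.congr_fun hs0 w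
  let s : V'' →ₗ[ℂ] V := s0 - i ∘ₗ r ∘ₗ s0
  have hpi : ∀ w, p (i w) = 0 := fun w => (hex _).2 ⟨w, rfl⟩
  have hid : ∀ v, i (r v) + s (p v) = v := by
    intro v
    obtain ⟨w, hw⟩ := (hex (v - s0 (p v))).1 (by rw [map_sub, hs0', sub_self])
    have hv : v = i w + s0 (p v) := by rw [hw]; abel
    have h3 : r v = w + r (s0 (p v)) := by
      conv_lhs => rw [hv]
      rw [map_add, hr']
    show i (r v) + (s0 (p v) - i (r (s0 (p v)))) = v
    rw [h3, map_add]
    conv_rhs => rw [hv]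
    abel
  have hps : ∀ w, p (s w) = w := by
    intro w
    show p (s0 w - i (r (s0 w))) = w
    rw [map_sub, hpi, sub_zero, hs0']
  have hT : T = (T ∘ₗ i) ∘ₗ r + (T ∘ₗ s) ∘ₗ p := by
    ext v
    show T v = T (i (r v)) + T (s (p v))
    rw [← map_add, hid]
  have e1 : r ∘ₗ (T ∘ₗ i) = T' := by
    refine LinearMap.ext fun w => ?_
    show r (T (i w)) = T' w
    rw [h1, hr']
  have e2 : p ∘ₗ (T ∘ₗ s) = T'' := by
    refine LinearMap.ext fun w => ?_
    show p (T (s w)) = T'' w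
    rw [h2, hps]
  have e3 : LinearMap.trace ℂ V T = LinearMap.trace ℂ V ((T ∘ₗ i) ∘ₗ r + (T ∘ₗ s) ∘ₗ p) := by
    rw [← hT]
  have e4 : LinearMap.trace ℂ V ((T ∘ₗ i) ∘ₗ r) = LinearMap.trace ℂ V' (r ∘ₗ (T ∘ₗ i)) :=
    LinearMap.trace_comp_comm' _ _
  have e5 : LinearMap.trace ℂ V ((T ∘ₗ s) ∘ₗ p) = LinearMap.trace ℂ V'' (p ∘ₗ (T ∘ₗ s)) :=
    LinearMap.trace_comp_comm' _ _
  rw [e3, map_add, e4, e5, e1, e2]

section

variable {R : Type} [CommRing R] [Algebra ℂ R]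

/-- The endomorphism of `R ⧸ K` induced by `τ`. -/
noncomputable def qmap (τ : R →ₐ[ℂ] R) (K : Ideal R) (h : K ≤ K.comap τ) : (R ⧸ K) →ₗ[ℂ] (R ⧸ K) :=
  (Ideal.quotientMapₐ K τ h).toLinearMap

theorem qmap_mk (τ : R →ₐ[ℂ] R) (K : Ideal R) (h : K ≤ K.comap τ) (r : R) :
    qmap τ K h (Ideal.Quotient.mk K r) = Ideal.Quotient.mk K (τ r) := rfl

open Classical in
/-- The trace of `τ` on `R ⧸ K`. -/
noncomputable def tr (τ : R →ₐ[ℂ] R) (K : Ideal R) : ℂ :=
  if h : K ≤ K.comap τ then LinearMap.trace ℂ (R ⧸ K) (qmap τ K h) else 0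

theorem tr_eq (τ : R →ₐ[ℂ] R) (K : Ideal R) (h : K ≤ K.comap τ) (T : (R ⧸ K) →ₗ[ℂ] (R ⧸ K))
    (hT : ∀ r, T (Ideal.Quotient.mk K r) = Ideal.Quotient.mk K (τ r)) :
    LinearMap.trace ℂ (R ⧸ K) T = tr τ K := by
  rw [tr, dif_pos h]
  congr 1
  refine LinearMap.ext fun x => ?_
  obtain ⟨r, rfl⟩ := Ideal.Quotient.mk_surjective x
  rw [hT, qmap_mk]

theorem stable_sup {τ : R →ₐ[ℂ] R} {K L : Ideal R} (hK : K ≤ K.comap τ) (hL : L ≤ L.comap τ) :
    K ⊔ L ≤ (K ⊔ L).comap τ :=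
  sup_le (hK.trans (Ideal.comap_mono le_sup_left)) (hL.trans (Ideal.comap_mono le_sup_right))

theorem stable_span {τ : R →ₐ[ℂ] R} {u : R} {ζ : ℂ} (hu : τ u = ζ • u) :
    span {u} ≤ (span {u}).comap τ := by
  rw [Ideal.span_singleton_le_iff_mem, Ideal.mem_comap, hu, Algebra.smul_def]
  exact Ideal.mul_mem_left _ _ (Ideal.mem_span_singleton_self _)

theorem exists_mul_map {A B : Ideal R} (u : R) (h : ∀ x ∈ A, u * x ∈ B) :
    ∃ i : (R ⧸ A) →ₗ[ℂ] (R ⧸ B), ∀ r, i (Ideal.Quotient.mk _ r) = Ideal.Quotient.mk _ (u * r) :=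
  ⟨(Submodule.mapQ A B (LinearMap.mulLeft R u) h).restrictScalars ℂ, fun _ => rfl⟩

/-- Additivity of the trace. -/
theorem tr_mul {τ : R →ₐ[ℂ] R} {K : Ideal R} (hK : K ≤ K.comap τ) {u v : R} {α β : ℂ}
    (hu : τ u = α • u) (hv : τ v = β • v) (hreg : ∀ r, u * r ∈ K → r ∈ K)
    (f1 : Module.Finite ℂ (R ⧸ (K ⊔ span {u}))) (f2 : Module.Finite ℂ (R ⧸ (K ⊔ span {v})))
    (f3 : Module.Finite ℂ (R ⧸ (K ⊔ span {u * v}))) :
    tr τ (K ⊔ span {u * v}) = tr τ (K ⊔ span {u}) + α * tr τ (K ⊔ span {v}) := by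
  have huv : τ (u * v) = (α * β) • (u * v) := by
    rw [map_mul, hu, hv, smul_mul_smul_comm]
  have s1 := stable_sup hK (stable_span hu)
  have s2 := stable_sup hK (stable_span hv)
  have s3 := stable_sup hK (stable_span huv)
  have e1 := tr_eq τ _ s1 (qmap τ _ s1) fun _ => rfl
  have e2 := tr_eq τ _ s2 (qmap τ _ s2) fun _ => rfl
  have e3 := tr_eq τ _ s3 (qmap τ _ s3) fun _ => rfl
  rw [← e1, ← e2, ← e3]
  -- the maps
  have hle : ∀ x ∈ K ⊔ span {v}, u * x ∈ K ⊔ span {u * v} := by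
    intro x hx
    obtain ⟨k, hk, s, hs, rfl⟩ := Submodule.mem_sup.1 hx
    obtain ⟨t, rfl⟩ := Ideal.mem_span_singleton'.1 hs
    have : u * (k + t * v) = u * k + t * (u * v) := by ring
    rw [this]
    exact Submodule.add_mem_sup (K.mul_mem_left _ hk) (Ideal.mem_span_singleton'.2 ⟨t, rfl⟩)
  obtain ⟨i, hi⟩ := exists_mul_map u hle
  have huvu : K ⊔ span {u * v} ≤ K ⊔ span {u} := by
    refine sup_le_sup_left ?_ _
    rw [Ideal.span_singleton_le_iff_mem, mul_comm]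
    exact Ideal.mul_mem_left _ _ (Ideal.mem_span_singleton_self _)
  obtain ⟨p, hp⟩ : ∃ p : (R ⧸ (K ⊔ span {u * v})) →ₗ[ℂ] (R ⧸ (K ⊔ span {u})),
      ∀ r, p (Ideal.Quotient.mk _ r) = Ideal.Quotient.mk _ r :=
    ⟨(Ideal.Quotient.factorₐ ℂ huvu).toLinearMap, fun r => rfl⟩
  have := trace_exact i p ?_ ?_ ?_ (α • qmap τ _ s2) (qmap τ _ s3) (qmap τ _ s1) ?_ ?_
  · rw [this, map_smul, smul_eq_mul]
    ring
  · rw [injective_iff_map_eq_zero]
    intro x hx
    obtain ⟨r, rfl⟩ := Ideal.Quotient.mk_surjective x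
    rw [hi] at hx
    have h1 := Ideal.Quotient.eq_zero_iff_mem.1 hx
    obtain ⟨k, hk, s, hs, hks⟩ := Submodule.mem_sup.1 h1
    obtain ⟨t, rfl⟩ := Ideal.mem_span_singleton'.1 hs
    have h2 : r - t * v ∈ K := by
      apply hreg
      have : u * (r - t * v) = k := by linear_combination -hks
      rw [this]
      exact hk
    apply Ideal.Quotient.eq_zero_iff_mem.2
    have : r = (r - t * v) + t * v := by ring
    rw [this]
    exact Submodule.add_mem_sup h2 (Ideal.mem_span_singleton'.2 ⟨t, rfl⟩)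
  · intro x
    obtain ⟨r, rfl⟩ := Ideal.Quotient.mk_surjective x
    exact ⟨Ideal.Quotient.mk _ r, hp r⟩
  · intro x
    obtain ⟨r, rfl⟩ := Ideal.Quotient.mk_surjective x
    rw [hp]
    constructor
    · intro h
      obtain ⟨k, hk, s, hs, hks⟩ := Submodule.mem_sup.1 (Ideal.Quotient.eq_zero_iff_mem.1 h)
      obtain ⟨t, rfl⟩ := Ideal.mem_span_singleton'.1 hs
      refine ⟨Ideal.Quotient.mk _ t, ?_⟩
      rw [hi]
      apply Ideal.Quotient.eq.2
      have : u * t - r = -k := by linear_combination hks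
      rw [this]
      exact (le_sup_left : K ≤ _) (K.neg_mem hk)
    · rintro ⟨w, hw⟩
      obtain ⟨t, rfl⟩ := Ideal.Quotient.mk_surjective w
      rw [hi] at hw
      have h1 := Ideal.Quotient.eq.1 hw
      apply Ideal.Quotient.eq_zero_iff_mem.2
      have h2 := huvu h1
      have : r = -(u * t - r) + t * u := by ring
      rw [this]
      refine Ideal.add_mem _ (neg_mem h2) ?_
      exact (le_sup_right : span {u} ≤ _) (Ideal.mem_span_singleton'.2 ⟨t, rfl⟩)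
  · intro w
    obtain ⟨r, rfl⟩ := Ideal.Quotient.mk_surjective w
    rw [hi, qmap_mk, LinearMap.smul_apply, qmap_mk, map_smul, hi, map_mul, hu, smul_mul_assoc]
    rfl
  · intro x
    obtain ⟨r, rfl⟩ := Ideal.Quotient.mk_surjective x
    rw [qmap_mk, hp, hp, qmap_mk]

theorem tr_exchange {τ : R →ₐ[ℂ] R} {K : Ideal R} (hK : K ≤ K.comap τ) {u v : R} {ζ : ℂ}
    (hζ : ζ ≠ 1)
    (hu : τ u = ζ • u) (hv : τ v = ζ • v) (hru : ∀ r, u * r ∈ K → r ∈ K)
    (hrv : ∀ r, v * r ∈ K → r ∈ K)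
    (f1 : Module.Finite ℂ (R ⧸ (K ⊔ span {u}))) (f2 : Module.Finite ℂ (R ⧸ (K ⊔ span {v})))
    (f3 : Module.Finite ℂ (R ⧸ (K ⊔ span {u * v}))) :
    tr τ (K ⊔ span {u}) = tr τ (K ⊔ span {v}) := by
  have h1 := tr_mul hK hu hv hru f1 f2 f3
  have f3' : Module.Finite ℂ (R ⧸ (K ⊔ span {v * u})) := by rw [mul_comm v u]; exact f3
  have h2 := tr_mul hK hv hu hrv f2 f1 f3'
  rw [mul_comm v u] at h2
  have h3 : (1 - ζ) * (tr τ (K ⊔ span {u}) - tr τ (K ⊔ span {v})) = 0 := by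
    linear_combination h2 - h1
  rcases mul_eq_zero.1 h3 with h | h
  · exact absurd (sub_eq_zero.1 h).symm hζ
  · exact sub_eq_zero.1 h

end

section

variable {R : Type} [CommRing R] [IsLocalRing R] [IsNoetherianRing R] [Algebra ℂ R]

omit [IsNoetherianRing R] [Algebra ℂ R] in
theorem Prim.mul {K : Ideal R} {u v : R} (hu : Prim (K ⊔ span {u})) (hv : Prim (K ⊔ span {v})) :
    Prim (K ⊔ span {u * v}) := by
  obtain ⟨k, hk⟩ := hu
  obtain ⟨l, hl⟩ := hv
  have h1 : maximalIdeal R ^ (k + l) ≤ (K ⊔ span {u}) * (K ⊔ span {v}) := by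
    rw [pow_add]
    exact Ideal.mul_mono hk hl
  have h2 : (K ⊔ span {u}) * (K ⊔ span {v}) ≤ K ⊔ span {u * v} := by
    rw [Ideal.mul_le]
    intro a ha b hb
    obtain ⟨x, hx, s, hs, rfl⟩ := Submodule.mem_sup.1 ha
    obtain ⟨t, rfl⟩ := Ideal.mem_span_singleton'.1 hs
    obtain ⟨y, hy, s', hs', rfl⟩ := Submodule.mem_sup.1 hb
    obtain ⟨t', rfl⟩ := Ideal.mem_span_singleton'.1 hs'
    have : (x + t * u) * (y + t' * v) = ((y + t' * v) * x + (t * u) * y) + (t * t') * (u * v) := by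
      ring
    rw [this]
    exact Submodule.add_mem_sup (K.add_mem (K.mul_mem_left _ hx) (K.mul_mem_left _ hy))
      (Ideal.mem_span_singleton'.2 ⟨_, rfl⟩)
  exact ⟨k + l, h1.trans h2⟩

/-- Cohen-Macaulay property. -/
theorem cm (L : List (R × R)) : ∀ J : Ideal R, (∀ q ∈ L, q.1 ∈ maximalIdeal R) →
    (∀ q ∈ L, q.2 ∈ maximalIdeal R) → Reg J (L.map Prod.fst) →
    Prim (J ⊔ ofList (L.map Prod.fst)) → Prim (J ⊔ ofList (L.map Prod.snd)) →
    Reg J (L.map Prod.snd) := by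
  induction L with
  | nil => intro J _ _ _ _ _; trivial
  | cons q L ih =>
    obtain ⟨x, y⟩ := q
    intro J hX hY hreg hpX hpY
    have hx : x ∈ maximalIdeal R := hX (x, y) List.mem_cons_self
    have hy : y ∈ maximalIdeal R := hY (x, y) List.mem_cons_self
    have hX' : ∀ q ∈ L, q.1 ∈ maximalIdeal R := fun q hq => hX q (List.mem_cons_of_mem _ hq)
    have hY' : ∀ q ∈ L, q.2 ∈ maximalIdeal R := fun q hq => hY q (List.mem_cons_of_mem _ hq)
    have hXl : ∀ a ∈ L.map Prod.fst, a ∈ maximalIdeal R := by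
      intro a ha
      obtain ⟨q, hq, rfl⟩ := List.mem_map.1 ha
      exact hX' q hq
    have hYl : ∀ a ∈ L.map Prod.snd, a ∈ maximalIdeal R := by
      intro a ha
      obtain ⟨q, hq, rfl⟩ := List.mem_map.1 ha
      exact hY' q hq
    simp only [List.map_cons, ofList_cons] at hreg hpX hpY ⊢
    have e : ∀ (A : Ideal R) (z : R), J ⊔ (span {z} ⊔ A) = J ⊔ A ⊔ span {z} := by
      intro A z
      rw [sup_comm (span {z}) A, sup_assoc]
    have e' : ∀ (A : Ideal R) (z : R), J ⊔ span {z} ⊔ A = J ⊔ A ⊔ span {z} := by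
      intro A z
      rw [sup_right_comm]
    rw [e] at hpX hpY
    -- choose the constant
    have g1 := generic (K := J ⊔ ofList (L.map Prod.fst)) hy hx (Or.inr hpX)
    have g2 := generic (K := J ⊔ ofList (L.map Prod.snd)) hy hx (Or.inl hpY)
    obtain ⟨c, hc⟩ := (g1.union g2).infinite_compl.nonempty
    have hc1 : Prim (J ⊔ ofList (L.map Prod.fst) ⊔ span {y + c • x}) := by
      by_contra h; exact hc (Or.inl h)
    have hc2 : Prim (J ⊔ ofList (L.map Prod.snd) ⊔ span {y + c • x}) := by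
      by_contra h; exact hc (Or.inr h)
    set u := y + c • x with hu
    have hum : u ∈ maximalIdeal R := by
      rw [hu, Algebra.smul_def]
      exact Ideal.add_mem _ hy (Ideal.mul_mem_left _ _ hx)
    have r1 := (reg_rotate hx _ hXl).2 hreg
    rw [reg_append] at r1
    obtain ⟨r2, r3, -⟩ := r1
    have r4 := nzd_of_prim hx r3 hc1
    have r5 : Reg J (L.map Prod.fst ++ [u]) := (reg_append _ _ _).2 ⟨r2, r4, trivial⟩
    obtain ⟨r6, r7⟩ := (reg_rotate hum _ hXl).1 r5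
    have r8 := ih (J ⊔ span {u}) hX' hY' r7 (by rw [e']; exact hc1) (by rw [e']; exact hc2)
    have r9 := (reg_rotate hum _ hYl).2 ⟨r6, r8⟩
    rw [reg_append] at r9
    obtain ⟨r10, r11, -⟩ := r9
    have r12 := nzd_of_prim hum r11 hpY
    exact (reg_rotate hy _ hYl).1 ((reg_append _ _ _).2 ⟨r10, r12, trivial⟩)

omit [IsLocalRing R] [IsNoetherianRing R] in
theorem stable_ofList {τ : R →ₐ[ℂ] R} (l : List R) (h : ∀ u ∈ l, ∃ ζ : ℂ, τ u = ζ • u) :
    ofList l ≤ (ofList l).comap τ := by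
  induction l with
  | nil => simp
  | cons a l ih =>
    rw [ofList_cons]
    obtain ⟨ζ, hζ⟩ := h a List.mem_cons_self
    exact stable_sup (stable_span hζ) (ih fun u hu => h u (List.mem_cons_of_mem _ hu))

/-- The trace theorem: exchanging `f` and `x` does not change the trace. The list consists of
triples `(f, x, ζ)`. -/
theorem tr_list {τ : R →ₐ[ℂ] R} (FD : ∀ K : Ideal R, Prim K → Module.Finite ℂ (R ⧸ K))
    (L : List (R × R × ℂ)) : ∀ J : Ideal R, J ≤ J.comap τ →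
    (∀ q ∈ L, q.1 ∈ maximalIdeal R) → (∀ q ∈ L, q.2.1 ∈ maximalIdeal R) →
    (∀ q ∈ L, τ q.1 = q.2.2 • q.1) → (∀ q ∈ L, τ q.2.1 = q.2.2 • q.2.1) →
    (∀ q ∈ L, q.2.2 ≠ 1) →
    Reg J (L.map fun q => q.2.1) →
    Prim (J ⊔ ofList (L.map fun q => q.2.1)) → Prim (J ⊔ ofList (L.map fun q => q.1)) →
    tr τ (J ⊔ ofList (L.map fun q => q.1)) = tr τ (J ⊔ ofList (L.map fun q => q.2.1)) := by
  induction L with
  | nil => intro J _ _ _ _ _ _ _ _ _; rfl
  | cons q L ih =>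
    obtain ⟨f, x, ζ⟩ := q
    intro J hJ hF hX hτF hτX hζ hreg hpX hpF
    have hf : f ∈ maximalIdeal R := hF (f, x, ζ) List.mem_cons_self
    have hx : x ∈ maximalIdeal R := hX (f, x, ζ) List.mem_cons_self
    have hτf : τ f = ζ • f := hτF (f, x, ζ) List.mem_cons_self
    have hτx : τ x = ζ • x := hτX (f, x, ζ) List.mem_cons_self
    have hζ1 : ζ ≠ 1 := hζ (f, x, ζ) List.mem_cons_self
    have hF' : ∀ q ∈ L, q.1 ∈ maximalIdeal R := fun q hq => hF q (List.mem_cons_of_mem _ hq)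
    have hX' : ∀ q ∈ L, q.2.1 ∈ maximalIdeal R := fun q hq => hX q (List.mem_cons_of_mem _ hq)
    have hτF' : ∀ q ∈ L, τ q.1 = q.2.2 • q.1 := fun q hq => hτF q (List.mem_cons_of_mem _ hq)
    have hτX' : ∀ q ∈ L, τ q.2.1 = q.2.2 • q.2.1 := fun q hq => hτX q (List.mem_cons_of_mem _ hq)
    have hζ' : ∀ q ∈ L, q.2.2 ≠ 1 := fun q hq => hζ q (List.mem_cons_of_mem _ hq)
    have hXl : ∀ a ∈ L.map (fun q => q.2.1), a ∈ maximalIdeal R := by
      intro a ha
      obtain ⟨q, hq, rfl⟩ := List.mem_map.1 ha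
      exact hX' q hq
    have hFl : ∀ a ∈ L.map (fun q => q.1), a ∈ maximalIdeal R := by
      intro a ha
      obtain ⟨q, hq, rfl⟩ := List.mem_map.1 ha
      exact hF' q hq
    simp only [List.map_cons, ofList_cons] at hreg hpX hpF ⊢
    set X' := L.map (fun q => q.2.1) with hX'def
    set F' := L.map (fun q => q.1) with hF'def
    have e : ∀ (A : Ideal R) (z : R), J ⊔ (span {z} ⊔ A) = J ⊔ A ⊔ span {z} := by
      intro A z
      rw [sup_comm (span {z}) A, sup_assoc]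
    have e' : ∀ (A : Ideal R) (z : R), J ⊔ span {z} ⊔ A = J ⊔ A ⊔ span {z} := by
      intro A z
      rw [sup_right_comm]
    rw [e] at hpX hpF
    rw [e, e]
    have sX : J ⊔ ofList X' ≤ (J ⊔ ofList X').comap τ := by
      refine stable_sup hJ (stable_ofList _ ?_)
      intro u hu
      obtain ⟨q, hq, rfl⟩ := List.mem_map.1 hu
      exact ⟨_, hτX' q hq⟩
    have sF : J ⊔ ofList F' ≤ (J ⊔ ofList F').comap τ := by
      refine stable_sup hJ (stable_ofList _ ?_)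
      intro u hu
      obtain ⟨q, hq, rfl⟩ := List.mem_map.1 hu
      exact ⟨_, hτF' q hq⟩
    -- choose the constant
    have g1 := generic (K := J ⊔ ofList X') hf hx (Or.inr hpX)
    have g2 := generic (K := J ⊔ ofList F') hf hx (Or.inl hpF)
    obtain ⟨c, hc⟩ := (g1.union g2).infinite_compl.nonempty
    have hc1 : Prim (J ⊔ ofList X' ⊔ span {f + c • x}) := by
      by_contra h; exact hc (Or.inl h)
    have hc2 : Prim (J ⊔ ofList F' ⊔ span {f + c • x}) := by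
      by_contra h; exact hc (Or.inr h)
    set u := f + c • x with hu
    have hum : u ∈ maximalIdeal R := by
      rw [hu, Algebra.smul_def]
      exact Ideal.add_mem _ hf (Ideal.mul_mem_left _ _ hx)
    have hτu : τ u = ζ • u := by
      rw [hu, map_add, map_smul, hτf, hτx, smul_add, smul_comm]
    -- regularity
    have r1 := (reg_rotate hx _ hXl).2 hreg
    rw [reg_append] at r1
    obtain ⟨r2, r3, -⟩ := r1
    have r4 := nzd_of_prim hx r3 hc1
    have r5 : Reg J (X' ++ [u]) := (reg_append _ _ _).2 ⟨r2, r4, trivial⟩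
    obtain ⟨r6, r7⟩ := (reg_rotate hum _ hXl).1 r5
    have r8 : Reg (J ⊔ span {u}) F' := by
      have := cm (L.map fun q => (q.2.1, q.1)) (J ⊔ span {u})
      simp only [List.map_map, List.mem_map, Function.comp_def] at this
      refine this ?_ ?_ r7 ?_ ?_
      · rintro _ ⟨q, hq, rfl⟩; exact hX' q hq
      · rintro _ ⟨q, hq, rfl⟩; exact hF' q hq
      · rw [e']; exact hc1
      · rw [e']; exact hc2
    have r9 := (reg_rotate hum _ hFl).2 ⟨r6, r8⟩
    rw [reg_append] at r9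
    obtain ⟨r10, r11, -⟩ := r9
    have r12 := nzd_of_prim hum r11 hpF
    -- traces
    have t1 : tr τ (J ⊔ ofList F' ⊔ span {f}) = tr τ (J ⊔ ofList F' ⊔ span {u}) :=
      tr_exchange sF hζ1 hτf hτu r12 r11 (FD _ hpF) (FD _ hc2) (FD _ (hpF.mul hc2))
    have t2 : tr τ (J ⊔ ofList X' ⊔ span {u}) = tr τ (J ⊔ ofList X' ⊔ span {x}) :=
      tr_exchange sX hζ1 hτu hτx r4 r3 (FD _ hc1) (FD _ hpX) (FD _ (hc1.mul hpX))
    have t3 := ih (J ⊔ span {u}) (stable_sup hJ (stable_span hτu)) hF' hX' hτF' hτX' hζ' r7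
      (by rw [e']; exact hc1) (by rw [e']; exact hc2)
    rw [e', e'] at t3
    rw [t1, t3, t2]

end

end Pool.Agent.H870R2.LA
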