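import Pool.Agent.H870R2.LocAlgB

set_option autoImplicit false

namespace Pool.Agent.H870R2.LA

open Ideal IsLocalRing

section series

variable {n : ℕ}

/-- the power series ring -/
abbrev PS (n : ℕ) : Type := MvPowerSeries (Fin n) ℂ

theorem mem_ofList_X (l : List (Fin n)) : ∀ f : PS n,
    f ∈ ofList (l.map fun i => (MvPowerSeries.X i : PS n)) ↔
      ∀ m : Fin n →₀ ℕ, (∀ j ∈ l, m j = 0) → MvPowerSeries.coeff m f = 0 := by
  induction l with
  | nil =>
    intro f
    simp only [List.map_nil, ofList_nil, Submodule.mem_bot, List.not_mem_nil, false_implies,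
      implies_true, forall_const]
    constructor
    · rintro rfl m; simp
    · intro h
      ext m
      simpa using h m
  | cons i l ih =>
    intro f
    rw [List.map_cons, ofList_cons]
    constructor
    · intro hf m hm
      obtain ⟨a, ha, g, hg, rfl⟩ := Submodule.mem_sup.1 hf
      have h1 : (MvPowerSeries.X i : PS n) ∣ a := Ideal.mem_span_singleton.1 ha
      have h2 := (MvPowerSeries.X_dvd_iff.1 h1) m (hm i List.mem_cons_self)
      have h3 := (ih g).1 hg m (fun j hj => hm j (List.mem_cons_of_mem _ hj))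
      rw [map_add, h2, h3, add_zero]
    · intro h
      let f0 : PS n := fun m => if m i = 0 then MvPowerSeries.coeff m f else 0
      have hf0 : ∀ m, MvPowerSeries.coeff m f0 = if m i = 0 then MvPowerSeries.coeff m f else 0 :=
        fun m => rfl
      have : f = (f - f0) + f0 := by ring
      rw [this]
      refine Submodule.add_mem_sup ?_ ?_
      · rw [Ideal.mem_span_singleton, MvPowerSeries.X_dvd_iff]
        intro m hm
        rw [map_sub, hf0, if_pos hm, sub_self]
      · rw [ih]
        intro m hm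
        rw [hf0]
        split_ifs with hi
        · apply h
          intro j hj
          rcases List.mem_cons.1 hj with rfl | hj
          · exact hi
          · exact hm j hj
        · rfl

theorem reg_X (l : List (Fin n)) : ∀ l' : List (Fin n), (∀ i ∈ l, i ∉ l') → l.Nodup →
    Reg (ofList (l'.map fun i => (MvPowerSeries.X i : PS n)))
      (l.map fun i => (MvPowerSeries.X i : PS n)) := by
  induction l with
  | nil => intro l' _ _; trivial
  | cons i l ih =>
    intro l' hl' hnd
    rw [List.nodup_cons] at hnd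
    refine ⟨?_, ?_⟩
    · intro r hr
      rw [mem_ofList_X] at hr ⊢
      intro m hm
      have hi : i ∉ l' := hl' i List.mem_cons_self
      have := hr (m + Finsupp.single i 1) (by
        intro j hj
        have hij : i ≠ j := by rintro rfl; exact hi hj
        simp [hm j hj, hij])
      rw [add_comm] at this
      have h2 : MvPowerSeries.coeff (Finsupp.single i 1 + m)
          (MvPowerSeries.monomial (Finsupp.single i 1) (1 : ℂ) * r) = 0 := this
      rwa [MvPowerSeries.coeff_add_monomial_mul, one_mul] at h2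
    · have := ih (i :: l') (by
        intro j hj hj'
        rcases List.mem_cons.1 hj' with rfl | hj'
        · exact hnd.1 hj
        · exact hl' j (List.mem_cons_of_mem _ hj) hj') hnd.2
      rw [List.map_cons, ofList_cons, sup_comm] at this
      exact this

theorem mem_max (f : PS n) : f ∈ maximalIdeal (PS n) ↔ MvPowerSeries.constantCoeff f = 0 := by
  rw [mem_maximalIdeal, mem_nonunits_iff, MvPowerSeries.isUnit_iff_constantCoeff, isUnit_iff_ne_zero,
    not_not]

theorem max_eq : maximalIdeal (PS n) =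
    ofList ((List.finRange n).map fun i => (MvPowerSeries.X i : PS n)) := by
  ext f
  rw [mem_max, mem_ofList_X]
  constructor
  · intro h m hm
    have : m = 0 := by
      ext j
      exact hm j (List.mem_finRange j)
    subst this
    exact h
  · intro h
    exact h 0 (fun _ _ => rfl)

theorem max_eq' : maximalIdeal (PS n) =
    Ideal.span (Set.range fun i => (MvPowerSeries.X i : PS n)) := by
  rw [max_eq, ofList]
  congr 1
  ext f
  simp

theorem fd_aux (k : ℕ) : ∃ V : Submodule ℂ (PS n), V.FG ∧
    (∀ v ∈ V, ∃ p : MvPolynomial (Fin n) ℂ, (p : PS n) = v) ∧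
    ∀ f : PS n, ∃ v ∈ V, f - v ∈ maximalIdeal (PS n) ^ k := by
  induction k with
  | zero =>
    refine ⟨⊥, Submodule.fg_bot, ?_, ?_⟩
    · rintro v hv
      rw [Submodule.mem_bot] at hv
      exact ⟨0, by rw [hv]; simp⟩
    · intro f
      exact ⟨0, Submodule.zero_mem _, by simp⟩
  | succ k ih =>
    obtain ⟨V, hV1, hV2, hV3⟩ := ih
    refine ⟨(ℂ ∙ (1 : PS n)) ⊔ ⨆ i : Fin n, V.map (LinearMap.mulLeft ℂ (MvPowerSeries.X i : PS n)),
      ?_, ?_, ?_⟩
    · refine Submodule.FG.sup (Submodule.fg_span_singleton _) ?_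
      exact Submodule.fg_iSup _ fun i => hV1.map _
    · intro v hv
      let W : Submodule ℂ (PS n) :=
        LinearMap.range (MvPolynomial.coeToMvPowerSeries.algHom (σ := Fin n) (R := ℂ) ℂ).toLinearMap
      have hW : ∀ w, w ∈ W ↔ ∃ p : MvPolynomial (Fin n) ℂ, (p : PS n) = w := by
        intro w
        constructor
        · rintro ⟨p, rfl⟩
          exact ⟨p, by simp⟩
        · rintro ⟨p, rfl⟩
          exact ⟨p, by simp⟩
      rw [← hW]
      revert v
      show _ ≤ W
      refine sup_le ?_ (iSup_le fun i => ?_)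
      · rw [Submodule.span_singleton_le_iff_mem, hW]
        exact ⟨1, by simp⟩
      · rintro _ ⟨v, hv, rfl⟩
        obtain ⟨p, rfl⟩ := hV2 v hv
        rw [hW]
        exact ⟨MvPolynomial.X i * p, by simp⟩
    · intro f
      have h1 : f - MvPowerSeries.C (MvPowerSeries.constantCoeff f) ∈ maximalIdeal (PS n) := by
        rw [mem_max]; simp
      rw [max_eq', Ideal.mem_span_range_iff_exists_fun] at h1
      obtain ⟨c, hc⟩ := h1
      choose v hvV hv using fun i => hV3 (c i)
      refine ⟨MvPowerSeries.C (MvPowerSeries.constantCoeff f) +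
        ∑ i, (MvPowerSeries.X i : PS n) * v i, ?_, ?_⟩
      · refine Submodule.add_mem_sup ?_ ?_
        · rw [Submodule.mem_span_singleton]
          refine ⟨MvPowerSeries.constantCoeff f, ?_⟩
          rw [MvPowerSeries.smul_eq_C_mul, mul_one]
        · refine Submodule.sum_mem _ fun i _ => ?_
          refine Submodule.mem_iSup_of_mem i ?_
          exact ⟨v i, hvV i, rfl⟩
      · have : f - (MvPowerSeries.C (MvPowerSeries.constantCoeff f) +
            ∑ i, (MvPowerSeries.X i : PS n) * v i) = ∑ i, (MvPowerSeries.X i : PS n) * (c i - v i) := by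
          have : ∑ i, (MvPowerSeries.X i : PS n) * (c i - v i) =
              ∑ i, c i * (MvPowerSeries.X i : PS n) - ∑ i, (MvPowerSeries.X i : PS n) * v i := by
            rw [← Finset.sum_sub_distrib]
            refine Finset.sum_congr rfl fun i _ => ?_
            ring
          rw [this, hc]
          ring
        rw [this]
        refine Ideal.sum_mem _ fun i _ => ?_
        rw [pow_succ']
        refine Ideal.mul_mem_mul ?_ (hv i)
        rw [mem_max]; simp

theorem exists_poly {K : Ideal (PS n)} (hK : Prim K) (f : PS n) :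
    ∃ p : MvPolynomial (Fin n) ℂ, f - (p : PS n) ∈ K := by
  obtain ⟨k, hk⟩ := hK
  obtain ⟨V, -, hV2, hV3⟩ := fd_aux (n := n) k
  obtain ⟨v, hv, hfv⟩ := hV3 f
  obtain ⟨p, rfl⟩ := hV2 v hv
  exact ⟨p, hk hfv⟩

theorem fd (K : Ideal (PS n)) (hK : Prim K) : Module.Finite ℂ (PS n ⧸ K) := by
  obtain ⟨k, hk⟩ := hK
  obtain ⟨V, hV1, -, hV3⟩ := fd_aux (n := n) k
  have : Module.Finite ℂ V := Module.Finite.of_fg hV1
  let g : V →ₗ[ℂ] (PS n ⧸ K) := (Ideal.Quotient.mkₐ ℂ K).toLinearMap ∘ₗ V.subtype
  refine Module.Finite.of_surjective g ?_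
  intro x
  obtain ⟨f, rfl⟩ := Ideal.Quotient.mk_surjective x
  obtain ⟨v, hv, hfv⟩ := hV3 f
  refine ⟨⟨v, hv⟩, ?_⟩
  show Ideal.Quotient.mk K v = Ideal.Quotient.mk K f
  rw [Ideal.Quotient.eq]
  have : v - f = -(f - v) := by ring
  rw [this]
  exact neg_mem (hk hfv)

theorem prim_of_finite (K : Ideal (PS n)) (h : Module.Finite ℂ (PS n ⧸ K)) : Prim K := by
  have hart : IsArtinianRing (PS n ⧸ K) := IsArtinianRing.of_finite ℂ _
  refine Ideal.exists_pow_le_of_le_radical_of_fg ?_ (IsNoetherian.noetherian _)
  intro x hx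
  obtain ⟨k, y, hy⟩ := IsArtinian.exists_pow_succ_smul_dvd (Ideal.Quotient.mk K x)
    (1 : PS n ⧸ K)
  obtain ⟨z, rfl⟩ := Ideal.Quotient.mk_surjective y
  refine ⟨k, ?_⟩
  simp only [smul_eq_mul, mul_one] at hy
  rw [← map_pow, ← map_mul, ← map_pow, Ideal.Quotient.eq] at hy
  have hu : IsUnit (x * z - 1) := by
    by_contra hcon
    have h1 : x * z - 1 ∈ maximalIdeal (PS n) := hcon
    have h2 : (1 : PS n) ∈ maximalIdeal (PS n) := by
      have : (1 : PS n) = z * x - (x * z - 1) := by ring
      rw [this]
      exact Ideal.sub_mem _ (Ideal.mul_mem_left _ _ hx) h1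
    exact (Ideal.ne_top_iff_one _).1 (maximalIdeal.isMaximal (PS n)).ne_top h2
  obtain ⟨w, hw⟩ := hu.exists_right_inv
  have : x ^ k = w * (x ^ k.succ * z - x ^ k) := by
    have : w * (x ^ k.succ * z - x ^ k) = x ^ k * ((x * z - 1) * w) := by
      rw [Nat.succ_eq_add_one, pow_succ]; ring
    rw [this, hw, mul_one]
  rw [this]
  exact Ideal.mul_mem_left _ _ hy

end series

section diag

/-- A matrix of finite order is diagonalisable. -/
theorem exists_diag {n : ℕ} (M : Matrix (Fin n) (Fin n) ℂ) {k : ℕ} (hk : 0 < k) (hM : M ^ k = 1) :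
    ∃ (P Q : Matrix (Fin n) (Fin n) ℂ) (ζ : Fin n → ℂ), P * Q = 1 ∧ Q * P = 1 ∧
      P * M = Matrix.diagonal ζ * P := by
  let E : Module.End ℂ (Fin n → ℂ) := Matrix.toLin' M.transpose
  have hE : E ^ k = 1 := by
    have : (Matrix.toLin' M.transpose) ^ k = Matrix.toLin' (M.transpose ^ k) := by
      rw [Matrix.toLin'_pow]
    show (Matrix.toLin' M.transpose) ^ k = 1
    rw [this, ← Matrix.transpose_pow, hM, Matrix.transpose_one, Matrix.toLin'_one]
    rfl
  have hss : E.IsSemisimple := by
    refine Module.End.isSemisimple_of_squarefree_aeval_eq_zero (p := Polynomial.X ^ k - 1) ?_ ?_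
    · refine Polynomial.Separable.squarefree ?_
      refine Polynomial.separable_X_pow_sub_C 1 ?_ one_ne_zero
      exact_mod_cast hk.ne'
    · simp [hE]
  have htop := hss.iSup_eigenspace_eq_top
  let S : Set (Fin n → ℂ) := {v | ∃ μ : ℂ, E v = μ • v}
  have hS : ⊤ ≤ Submodule.span ℂ S := by
    rw [← htop]
    refine iSup_le fun μ v hv => ?_
    exact Submodule.subset_span ⟨μ, Module.End.mem_eigenspace_iff.1 hv⟩
  let b := Module.Basis.ofSpan hS
  have hbS : ∀ i, ∃ μ : ℂ, E (b i) = μ • b i := fun i => Module.Basis.ofSpan_subset hS ⟨i, rfl⟩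
  have : Fintype _ := FiniteDimensional.fintypeBasisIndex b
  have hcard := Module.finrank_eq_card_basis b
  rw [Module.finrank_fin_fun] at hcard
  let e := Fintype.equivFinOfCardEq hcard.symm
  let b' := b.reindex e
  choose μ hμ using fun i => hbS (e.symm i)
  have hμ' : ∀ i, E (b' i) = μ i • b' i := by
    intro i
    have : b' i = b (e.symm i) := Module.Basis.reindex_apply _ _ _
    rw [this]
    exact hμ i
  let B := Pi.basisFun ℂ (Fin n)
  -- rows of `P` are the eigenvectors
  let P : Matrix (Fin n) (Fin n) ℂ := (B.toMatrix b').transpose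
  let Q : Matrix (Fin n) (Fin n) ℂ := (b'.toMatrix B).transpose
  refine ⟨P, Q, μ, ?_, ?_, ?_⟩
  · show (B.toMatrix b').transpose * (b'.toMatrix B).transpose = 1
    rw [← Matrix.transpose_mul, Module.Basis.toMatrix_mul_toMatrix_flip, Matrix.transpose_one]
  · show (b'.toMatrix B).transpose * (B.toMatrix b').transpose = 1
    rw [← Matrix.transpose_mul, Module.Basis.toMatrix_mul_toMatrix_flip, Matrix.transpose_one]
  · ext i j
    have h1 := congrFun (hμ' i) j
    have hP : ∀ i j, P i j = b' i j := by
      intro i j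
      show B.toMatrix b' j i = b' i j
      simp [Module.Basis.toMatrix_apply, B]
    rw [Matrix.diagonal_mul, Matrix.mul_apply]
    simp only [hP]
    have h2 : E (b' i) j = ∑ l, M l j * b' i l := by
      show (Matrix.toLin' M.transpose) (b' i) j = _
      rw [Matrix.toLin'_apply, Matrix.mulVec, dotProduct]
      rfl
    rw [h2] at h1
    rw [Pi.smul_apply, smul_eq_mul] at h1
    rw [← h1]
    exact Finset.sum_congr rfl fun l _ => mul_comm _ _

end diag

end Pool.Agent.H870R2.LA
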