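import Pool.Agent.H870R2.LocAlgC

set_option autoImplicit false

namespace Pool.Agent.H870R2.LA

open Ideal IsLocalRing

variable {n : ℕ}

/-- matrix times vector of power series -/
noncomputable def lin (B : Matrix (Fin n) (Fin n) ℂ) (v : Fin n → PS n) : Fin n → PS n :=
  fun i => ∑ j, B i j • v j

theorem lin_lin (B C : Matrix (Fin n) (Fin n) ℂ) (v : Fin n → PS n) :
    lin B (lin C v) = lin (B * C) v := by
  funext i
  show ∑ j, B i j • ∑ k, C j k • v k = ∑ k, (B * C) i k • v k
  simp only [Finset.smul_sum, smul_smul, Matrix.mul_apply, Finset.sum_smul]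
  rw [Finset.sum_comm]

theorem lin_one (v : Fin n → PS n) : lin 1 v = v := by
  funext i
  show ∑ j, (1 : Matrix (Fin n) (Fin n) ℂ) i j • v j = v i
  simp [Matrix.one_apply, ite_smul]

theorem lin_diag (ζ : Fin n → ℂ) (v : Fin n → PS n) (i : Fin n) :
    lin (Matrix.diagonal ζ) v i = ζ i • v i := by
  show ∑ j, (Matrix.diagonal ζ) i j • v j = ζ i • v i
  simp [Matrix.diagonal_apply, ite_smul]

theorem map_lin (τ : PS n →ₐ[ℂ] PS n) (B : Matrix (Fin n) (Fin n) ℂ) (v : Fin n → PS n) (i : Fin n) :
    τ (lin B v i) = lin B (fun j => τ (v j)) i := by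
  show τ (∑ j, B i j • v j) = ∑ j, B i j • τ (v j)
  simp [map_sum, map_smul]

theorem lin_mem {K : Ideal (PS n)} {B : Matrix (Fin n) (Fin n) ℂ} {v : Fin n → PS n} {i : Fin n}
    (h : ∀ j, v j ∈ K) : lin B v i ∈ K := by
  refine Ideal.sum_mem _ fun j _ => ?_
  rw [Algebra.smul_def]
  exact K.mul_mem_left _ (h j)

theorem smul_mem_ideal {K : Ideal (PS n)} {c : ℂ} {a : PS n} (h : a ∈ K) : c • a ∈ K := by
  rw [Algebra.smul_def]
  exact K.mul_mem_left _ h

theorem mem_of_smul_mem {K : Ideal (PS n)} {c : ℂ} (hc : c ≠ 0) {a : PS n} (h : c • a ∈ K) :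
    a ∈ K := by
  have := smul_mem_ideal (c := c⁻¹) h
  rwa [smul_smul, inv_mul_cancel₀ hc, one_smul] at this

/-- The main theorem, for a matrix of finite order. -/
theorem main (M : Matrix (Fin n) (Fin n) ℂ) {k : ℕ} (hk : 0 < k) (hM : M ^ k = 1)
    (f : Fin n → MvPolynomial (Fin n) ℂ)
    (heq : ∀ i : Fin n,
      MvPolynomial.aeval
          (fun j : Fin n => ∑ k : Fin n, M j k • (MvPolynomial.X k : MvPolynomial (Fin n) ℂ))
          (f i)
        = ∑ j : Fin n, M i j • f j)
    (h0 : ∀ i : Fin n, MvPolynomial.constantCoeff (f i) = 0)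
    (I : Ideal (PS n)) (hI : I = Ideal.span (Set.range (fun i : Fin n => (f i : PS n))))
    (hfin : Module.Finite ℂ (PS n ⧸ I))
    (T : (PS n ⧸ I) →ₐ[ℂ] (PS n ⧸ I))
    (hT : ∀ i : Fin n, T (Ideal.Quotient.mk I (MvPowerSeries.X i)) =
      Ideal.Quotient.mk I (∑ j : Fin n, M i j • (MvPowerSeries.X j : PS n))) :
    LinearMap.trace ℂ (PS n ⧸ I) T.toLinearMap
      = ((Module.finrank ℂ (PS n ⧸ Ideal.span (Set.range (fun i : Fin n => (f i : PS n)) ∪
          Set.range (fun i : Fin n => ∑ j : Fin n, (M - 1) i j • (MvPowerSeries.X j : PS n))))) : ℂ) := by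
  classical
  obtain ⟨P, Q, ζ, hPQ, hQP, hPM⟩ := exists_diag M hk hM
  let X : Fin n → PS n := fun i => MvPowerSeries.X i
  let φ : Fin n → PS n := fun i => (f i : PS n)
  let y : Fin n → PS n := lin P X
  let F : Fin n → PS n := lin P φ
  have hXmem : ∀ i, X i ∈ maximalIdeal (PS n) := fun i => by rw [mem_max]; simp [X]
  have hφmem : ∀ i, φ i ∈ maximalIdeal (PS n) := fun i => by
    rw [mem_max]
    have := h0 i
    rw [← MvPowerSeries.coeff_zero_eq_constantCoeff_apply, MvPolynomial.coeff_coe]
    exact this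
  -- the automorphism
  have hsub : MvPowerSeries.HasSubst (fun i : Fin n => lin M X i) := by
    refine MvPowerSeries.hasSubst_of_constantCoeff_zero fun i => ?_
    rw [← mem_max]
    exact lin_mem hXmem
  let τ : PS n →ₐ[ℂ] PS n := MvPowerSeries.substAlgHom hsub
  have hτX : ∀ i, τ (X i) = lin M X i := fun i => MvPowerSeries.substAlgHom_X hsub i
  have hτφ : ∀ i, τ (φ i) = lin M φ i := by
    intro i
    show τ (f i : PS n) = ∑ j, M i j • (f j : PS n)
    have h1 : τ (f i : PS n) = MvPolynomial.aeval (fun i : Fin n => lin M X i) (f i) :=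
      MvPowerSeries.substAlgHom_coe hsub (f i)
    rw [h1]
    let c : MvPolynomial (Fin n) ℂ →ₐ[ℂ] PS n := MvPolynomial.coeToMvPowerSeries.algHom ℂ
    have hc : ∀ p, c p = (p : PS n) := fun p => by simp [c]
    have h2 := congrArg c (heq i)
    rw [hc, hc] at h2
    have h3 : (MvPolynomial.aeval (fun i : Fin n => lin M X i) : MvPolynomial (Fin n) ℂ →ₐ[ℂ] PS n) =
        c.comp (MvPolynomial.aeval
          (fun j : Fin n => ∑ k : Fin n, M j k • (MvPolynomial.X k : MvPolynomial (Fin n) ℂ))) := by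
      apply MvPolynomial.algHom_ext
      intro j
      rw [MvPolynomial.aeval_X, AlgHom.comp_apply, MvPolynomial.aeval_X, map_sum]
      refine Finset.sum_congr rfl fun k _ => ?_
      rw [map_smul, hc, MvPolynomial.coe_X]
    rw [h3, AlgHom.comp_apply, hc, h2, ← hc, map_sum]
    refine Finset.sum_congr rfl fun k _ => ?_
    rw [map_smul, hc]
  have hτy : ∀ i, τ (y i) = ζ i • y i := by
    intro i
    show τ (lin P X i) = ζ i • lin P X i
    rw [map_lin]
    have : (fun j => τ (X j)) = lin M X := funext hτX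
    rw [this, lin_lin, hPM, ← lin_lin, lin_diag]
  have hτF : ∀ i, τ (F i) = ζ i • F i := by
    intro i
    show τ (lin P φ i) = ζ i • lin P φ i
    rw [map_lin]
    have : (fun j => τ (φ j)) = lin M φ := funext hτφ
    rw [this, lin_lin, hPM, ← lin_lin, lin_diag]
  have hymem : ∀ i, y i ∈ maximalIdeal (PS n) := fun i => lin_mem hXmem
  have hFmem : ∀ i, F i ∈ maximalIdeal (PS n) := fun i => lin_mem hφmem
  have hFI : ∀ i, F i ∈ I := fun i => lin_mem fun j => by rw [hI]; exact Ideal.subset_span ⟨j, rfl⟩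
  have hφF : lin Q F = φ := by
    show lin Q (lin P φ) = φ
    rw [lin_lin, hQP, lin_one]
  have hXy : lin Q y = X := by
    show lin Q (lin P X) = X
    rw [lin_lin, hQP, lin_one]
  have hI1 : Prim I := prim_of_finite I hfin
  -- the lists
  let LF : List (Fin n) := (List.finRange n).filter fun i => decide (ζ i = 1)
  let LN : List (Fin n) := (List.finRange n).filter fun i => !decide (ζ i = 1)
  have hLF : ∀ i, i ∈ LF ↔ ζ i = 1 := by intro i; simp [LF]
  have hLN : ∀ i, i ∈ LN ↔ ζ i ≠ 1 := by intro i; simp [LN]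
  have hlen : LF.length + LN.length = n := by
    have := List.length_eq_length_filter_add (l := List.finRange n) fun i => decide (ζ i = 1)
    simp only [List.length_finRange] at this
    exact this.symm
  let KN : Ideal (PS n) := ofList (LN.map y)
  let JF : Ideal (PS n) := ofList (LF.map F)
  have hyKN : ∀ i, ζ i ≠ 1 → y i ∈ KN := fun i hi =>
    Ideal.subset_span (List.mem_map.2 ⟨i, (hLN i).2 hi, rfl⟩)
  have hFJF : ∀ i, ζ i = 1 → F i ∈ JF := fun i hi =>
    Ideal.subset_span (List.mem_map.2 ⟨i, (hLF i).2 hi, rfl⟩)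
  -- `τ` is trivial modulo `KN`, on polynomials
  have hτX' : ∀ i, τ (X i) - X i ∈ KN := by
    intro i
    have h1 : τ (X i) - X i = lin Q (fun j => (ζ j - 1) • y j) i := by
      have e1 : τ (X i) = lin Q (fun j => ζ j • y j) i := by
        rw [← hXy, map_lin]
        congr 1
        funext j
        exact hτy j
      rw [e1]
      have e2 : X i = lin Q y i := by rw [hXy]
      rw [e2]
      show ∑ j, Q i j • ζ j • y j - ∑ j, Q i j • y j = ∑ j, Q i j • (ζ j - 1) • y j
      rw [← Finset.sum_sub_distrib]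
      refine Finset.sum_congr rfl fun j _ => ?_
      rw [sub_smul, one_smul, smul_sub]
    rw [h1]
    refine lin_mem fun j => ?_
    by_cases hj : ζ j = 1
    · rw [hj, sub_self, zero_smul]; exact KN.zero_mem
    · exact smul_mem_ideal (hyKN j hj)
  have htriv : ∀ p : MvPolynomial (Fin n) ℂ, τ (p : PS n) - (p : PS n) ∈ KN := by
    intro p
    rw [← Ideal.Quotient.eq]
    let c : MvPolynomial (Fin n) ℂ →ₐ[ℂ] PS n := MvPolynomial.coeToMvPowerSeries.algHom ℂ
    have hc : ∀ p, c p = (p : PS n) := fun p => by simp [c]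
    have h1 : ((Ideal.Quotient.mkₐ ℂ KN).comp τ).comp c = (Ideal.Quotient.mkₐ ℂ KN).comp c := by
      apply MvPolynomial.algHom_ext
      intro j
      simp only [AlgHom.comp_apply, hc, MvPolynomial.coe_X]
      exact Ideal.Quotient.eq.2 (hτX' j)
    have h2 := DFunLike.congr_fun h1 p
    simp only [AlgHom.comp_apply, hc] at h2
    exact h2
  -- `F i` is in `KN` for the nontrivial weights
  have hFKN : ∀ i, ζ i ≠ 1 → F i ∈ KN := by
    intro i hi
    have h1 : τ (F i) - F i ∈ KN := by
      let p : MvPolynomial (Fin n) ℂ := ∑ j, P i j • f j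
      have hp : (p : PS n) = F i := by
        let c : MvPolynomial (Fin n) ℂ →ₐ[ℂ] PS n := MvPolynomial.coeToMvPowerSeries.algHom ℂ
        have hc : ∀ p, c p = (p : PS n) := fun p => by simp [c]
        rw [← hc, map_sum]
        refine Finset.sum_congr rfl fun k _ => ?_
        rw [map_smul, hc]
      rw [← hp]
      exact htriv p
    rw [hτF] at h1
    have h2 : ζ i • F i - F i = (ζ i - 1) • F i := by rw [sub_smul, one_smul]
    rw [h2] at h1
    exact mem_of_smul_mem (sub_ne_zero.2 hi) h1
  -- the ideal `K = (F_F, y_N)`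
  have hIK : I ≤ JF ⊔ KN := by
    rw [hI, Ideal.span_le]
    rintro _ ⟨i, rfl⟩
    have : (f i : PS n) = lin Q F i := by rw [hφF]
    show (f i : PS n) ∈ JF ⊔ KN
    rw [this]
    refine lin_mem fun j => ?_
    by_cases hj : ζ j = 1
    · exact (le_sup_left : JF ≤ _) (hFJF j hj)
    · exact (le_sup_right : KN ≤ _) (hFKN j hj)
  have hK1 : Prim (JF ⊔ KN) := hI1.mono hIK
  have hJN : JF ⊔ ofList (LN.map F) = I := by
    apply le_antisymm
    · refine sup_le ?_ ?_
      · rw [Ideal.span_le]
        rintro _ hx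
        obtain ⟨i, -, rfl⟩ := List.mem_map.1 hx
        exact hFI i
      · rw [Ideal.span_le]
        rintro _ hx
        obtain ⟨i, -, rfl⟩ := List.mem_map.1 hx
        exact hFI i
    · rw [hI, Ideal.span_le]
      rintro _ ⟨i, rfl⟩
      have : (f i : PS n) = lin Q F i := by rw [hφF]
      show (f i : PS n) ∈ JF ⊔ ofList (LN.map F)
      rw [this]
      refine lin_mem fun j => ?_
      by_cases hj : ζ j = 1
      · exact (le_sup_left : JF ≤ _) (hFJF j hj)
      · exact (le_sup_right : ofList (LN.map F) ≤ _)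
          (Ideal.subset_span (List.mem_map.2 ⟨j, (hLN j).2 hj, rfl⟩))
  -- regularity
  have hreg : Reg (⊥ : Ideal (PS n)) (LF.map F ++ LN.map y) := by
    let Xs : List (PS n) := (List.finRange n).map X
    let Ys : List (PS n) := LF.map F ++ LN.map y
    have hl : Xs.length = Ys.length := by
      simp [Xs, Ys, hlen]
    have h1 : (Xs.zip Ys).map Prod.fst = Xs := List.map_fst_zip hl.le
    have h2 : (Xs.zip Ys).map Prod.snd = Ys := List.map_snd_zip hl.ge
    have hYs : ∀ a ∈ Ys, a ∈ maximalIdeal (PS n) := by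
      intro a ha
      rcases List.mem_append.1 ha with ha | ha
      · obtain ⟨i, -, rfl⟩ := List.mem_map.1 ha
        exact hFmem i
      · obtain ⟨i, -, rfl⟩ := List.mem_map.1 ha
        exact hymem i
    have hXs : ∀ a ∈ Xs, a ∈ maximalIdeal (PS n) := by
      intro a ha
      obtain ⟨i, -, rfl⟩ := List.mem_map.1 ha
      exact hXmem i
    have := cm (Xs.zip Ys) (⊥ : Ideal (PS n)) (fun q hq => hXs _ (List.of_mem_zip hq).1)
      (fun q hq => hYs _ (List.of_mem_zip hq).2)
    rw [h1, h2] at this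
    refine this ?_ ?_ ?_
    · have := reg_X (List.finRange n) [] (by simp) (List.nodup_finRange n)
      simpa using this
    · refine ⟨1, ?_⟩
      rw [pow_one, bot_sup_eq, max_eq]
    · rw [ofList_append, bot_sup_eq]
      exact hK1
  have hreg2 : Reg JF (LN.map y) := by
    have := ((reg_append _ _ _).1 hreg).2
    rwa [bot_sup_eq] at this
  have hJFs : JF ≤ JF.comap τ := by
    refine stable_ofList _ ?_
    intro u hu
    obtain ⟨i, -, rfl⟩ := List.mem_map.1 hu
    exact ⟨_, hτF i⟩
  have hKNs : KN ≤ KN.comap τ := by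
    refine stable_ofList _ ?_
    intro u hu
    obtain ⟨i, -, rfl⟩ := List.mem_map.1 hu
    exact ⟨_, hτy i⟩
  have hIs : I ≤ I.comap τ := by
    rw [← hJN]
    refine stable_sup hJFs (stable_ofList _ ?_)
    intro u hu
    obtain ⟨i, -, rfl⟩ := List.mem_map.1 hu
    exact ⟨_, hτF i⟩
  -- the exchange theorem
  have key : tr τ I = tr τ (JF ⊔ KN) := by
    have := tr_list (τ := τ) fd (LN.map fun i => (F i, y i, ζ i)) JF hJFs
      (by intro q hq; obtain ⟨i, hi, rfl⟩ := List.mem_map.1 hq; exact hFmem i)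
      (by intro q hq; obtain ⟨i, hi, rfl⟩ := List.mem_map.1 hq; exact hymem i)
      (by intro q hq; obtain ⟨i, hi, rfl⟩ := List.mem_map.1 hq; exact hτF i)
      (by intro q hq; obtain ⟨i, hi, rfl⟩ := List.mem_map.1 hq; exact hτy i)
      (by intro q hq; obtain ⟨i, hi, rfl⟩ := List.mem_map.1 hq; exact (hLN i).1 hi)
      (by rw [List.map_map]; exact hreg2)
      (by rw [List.map_map]; exact hK1)
      (by rw [List.map_map]; exact hJN.symm ▸ hI1)
    rw [List.map_map, List.map_map] at this
    have e1 : JF ⊔ ofList (LN.map ((fun q : PS n × PS n × ℂ => q.1) ∘ fun i => (F i, y i, ζ i))) = I :=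
      hJN
    rw [e1] at this
    exact this
  -- left hand side
  have hT' : ∀ r, T.toLinearMap (Ideal.Quotient.mk I r) = Ideal.Quotient.mk I (τ r) := by
    have hpoly : ∀ p : MvPolynomial (Fin n) ℂ,
        T (Ideal.Quotient.mk I (p : PS n)) = Ideal.Quotient.mk I (τ (p : PS n)) := by
      intro p
      let c : MvPolynomial (Fin n) ℂ →ₐ[ℂ] PS n := MvPolynomial.coeToMvPowerSeries.algHom ℂ
      have hc : ∀ p, c p = (p : PS n) := fun p => by simp [c]
      have h1 : (T.comp (Ideal.Quotient.mkₐ ℂ I)).comp c = ((Ideal.Quotient.mkₐ ℂ I).comp τ).comp c := by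
        apply MvPolynomial.algHom_ext
        intro j
        simp only [AlgHom.comp_apply, hc, MvPolynomial.coe_X]
        have h2 := hT j
        have h3 := hτX j
        show T (Ideal.Quotient.mk I (MvPowerSeries.X j)) = Ideal.Quotient.mk I (τ (X j))
        rw [h2, h3]
        rfl
      have h2 := DFunLike.congr_fun h1 p
      simp only [AlgHom.comp_apply, hc] at h2
      exact h2
    intro r
    obtain ⟨p, hp⟩ := exists_poly hI1 r
    have e1 : Ideal.Quotient.mk I r = Ideal.Quotient.mk I (p : PS n) := Ideal.Quotient.eq.2 hp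
    have e2 : Ideal.Quotient.mk I (τ r) = Ideal.Quotient.mk I (τ (p : PS n)) := by
      rw [Ideal.Quotient.eq, ← map_sub]
      exact hIs hp
    rw [e1, e2]
    exact hpoly p
  have hL := tr_eq τ I hIs T.toLinearMap hT'
  -- right hand side
  have hKs := stable_sup hJFs hKNs
  have hR := tr_eq τ (JF ⊔ KN) hKs LinearMap.id (by
    intro r
    obtain ⟨p, hp⟩ := exists_poly hK1 r
    rw [LinearMap.id_apply, Ideal.Quotient.eq]
    have : r - τ r = (r - p) - τ (r - p) - (τ (p : PS n) - p) := by rw [map_sub]; ring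
    rw [this]
    refine Ideal.sub_mem _ (Ideal.sub_mem _ hp (hKs hp)) ?_
    exact (le_sup_right : KN ≤ _) (htriv p))
  have hfK := fd _ hK1
  rw [LinearMap.trace_id] at hR
  rw [hL, key, ← hR]
  have hideal : Ideal.span (Set.range (fun i : Fin n => (f i : PS n)) ∪
      Set.range (fun i : Fin n => ∑ j : Fin n, (M - 1) i j • (MvPowerSeries.X j : PS n))) = JF ⊔ KN := by
    have hM1 : ∀ i, ∑ j : Fin n, (M - 1) i j • (MvPowerSeries.X j : PS n) = τ (X i) - X i := by
      intro i
      rw [hτX]
      have e1 : X i = lin 1 X i := by rw [lin_one]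
      conv_rhs => rw [e1]
      show _ = ∑ j, M i j • X j - ∑ j, (1 : Matrix (Fin n) (Fin n) ℂ) i j • X j
      rw [← Finset.sum_sub_distrib]
      refine Finset.sum_congr rfl fun j _ => ?_
      rw [Matrix.sub_apply, sub_smul]
    apply le_antisymm
    · rw [Ideal.span_le]
      rintro _ (⟨i, rfl⟩ | ⟨i, rfl⟩)
      · refine hIK ?_
        rw [hI]
        exact Ideal.subset_span ⟨i, rfl⟩
      · show ∑ j : Fin n, (M - 1) i j • (MvPowerSeries.X j : PS n) ∈ JF ⊔ KN
        rw [hM1]
        exact (le_sup_right : KN ≤ _) (hτX' i)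
    · refine sup_le ?_ ?_
      · rw [Ideal.span_le]
        rintro _ hx
        obtain ⟨i, -, rfl⟩ := List.mem_map.1 hx
        have h3 := hFI i
        rw [hI] at h3
        exact Ideal.span_mono Set.subset_union_left h3
      · rw [Ideal.span_le]
        rintro _ hx
        obtain ⟨i, hi, rfl⟩ := List.mem_map.1 hx
        have h1 : (ζ i - 1) • y i = lin P (fun j => τ (X j) - X j) i := by
          have e1 := hτy i
          have e2 : τ (y i) = lin P (fun j => τ (X j)) i := map_lin τ P X i
          rw [sub_smul, one_smul, ← e1, e2]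
          show ∑ j, P i j • τ (X j) - ∑ j, P i j • X j = ∑ j, P i j • (τ (X j) - X j)
          rw [← Finset.sum_sub_distrib]
          refine Finset.sum_congr rfl fun j _ => ?_
          rw [smul_sub]
        have h2 : (ζ i - 1) • y i ∈ Ideal.span (Set.range (fun i : Fin n => (f i : PS n)) ∪
            Set.range (fun i : Fin n => ∑ j : Fin n, (M - 1) i j • (MvPowerSeries.X j : PS n))) := by
          rw [h1]
          refine lin_mem fun j => ?_
          rw [← hM1]
          exact Ideal.subset_span (Or.inr ⟨j, rfl⟩)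
        exact mem_of_smul_mem (sub_ne_zero.2 ((hLN i).1 hi)) h2
  rw [hideal]

end Pool.Agent.H870R2.LA
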