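import Pool.Agent.Helper29.NilId
import Pool.Agent.Helper29.NilG

/-!
The ordered groups `G_p` are weakly abelian, and no group `G_p` is a homomorphic image of a
sub-`ℓ`-group of a product of nilpotent `ℓ`-groups.
-/

set_option autoImplicit false
set_option linter.unusedSectionVars false

namespace Pool.Agent.H870R2.WeakAb

open Pool.Agent.Helper29

variable (p : ℕ) [hp : Fact p.Prime]

theorem mul_lt_two {τ α : Op p} (hτ : OO.ev0 τ = 1) (hα : 0 < α) : τ * α < α + α := by
  rw [← sub_pos]
  obtain ⟨j, hj⟩ := OO.pos_iff.mp hα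
  have hW : α ∈ OO.W (a := (p : ℚ)) (b := thb p) j := by
    obtain ⟨β, h1, _⟩ := hj
    exact ⟨β, h1⟩
  have h2 := OO.W_mul hW τ hτ
  have h3 := OO.P_shift hj ((OO.W (j + 1)).neg_mem h2)
  refine OO.pos_iff.mpr ⟨j, ?_⟩
  have e : α + α - τ * α = α + -(τ * α - α) := by ring
  rw [e]
  exact h3

theorem weak (x y : (DG p).G) (h : 1 ≤ y) : x⁻¹ * y * x ≤ y * y := by
  rcases eq_or_lt_of_le h with h | h
  · rw [← h]; simp
  · have h' := h
    rw [KD.lt_iff] at h
    rcases h with h | ⟨h1, h | ⟨h2, h⟩⟩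
    · apply le_of_lt
      rw [KD.lt_iff]
      left
      simp only [KD.mul_u, KD.inv_u, KD.one_u] at h ⊢
      have e : x.u⁻¹ * y.u * x.u = y.u := by rw [mul_comm x.u⁻¹, inv_mul_cancel_right]
      rw [e]
      exact lt_mul_of_one_lt_left' y.u h
    · apply le_of_lt
      rw [KD.lt_iff]
      right
      rw [KD.one_u] at h1
      rw [KD.one_x] at h
      have e1 : (x⁻¹ * y * x).u = (y * y).u := by
        simp only [KD.mul_u, KD.inv_u, ← h1]; simp
      refine ⟨e1, Or.inl ?_⟩
      have e2 : (x⁻¹ * y * x).x = (((x.u⁻¹ : TT p) : (Op p)ˣ) : Op p) * y.x := by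
        simp only [KD.mul_x, KD.inv_x, KD.mul_u, KD.inv_u, ← h1, DG_act]
        simp
      have e3 : (y * y).x = y.x + y.x := by
        simp only [KD.mul_x, ← h1, DG_act]; simp
      rw [e2, e3]
      exact mul_lt_two p (x.u⁻¹).2.1 h
    · have hcen : x⁻¹ * y * x = y := by
        rw [KD.one_u] at h1
        rw [KD.one_x] at h2
        have hy : y = ⟨1, 0, y.z⟩ := by
          apply KD.G.ext
          · exact h1.symm
          · exact h2.symm
          · rfl
        have hc : y * x = x * y := by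
          rw [hy]
          apply KD.G.ext
          · simp
          · simp [(DG p).act_zero, (DG p).act_one]
          · simp [(DG p).act_zero, (DG p).act_one, (DG p).bil_zero_left, (DG p).bil_zero_right,
              add_comm]
        rw [mul_assoc, hc, inv_mul_cancel_left]
      rw [hcen]
      exact (lt_mul_of_one_lt_left' y h').le

/-- If `G` is the image of a sub-`ℓ`-group `S` of a product of `ℓ`-groups in which the
finite join of words is `≥ 1`, then this is so in `G`. -/
theorem transfer {G : Type} [Group G] [Lattice G] {I : Type} {H : I → Type}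
    [∀ i, Group (H i)] [∀ i, Lattice (H i)]
    (S : Set (∀ i, H i)) (f : (∀ i, H i) → G)
    (h1 : (1 : ∀ i, H i) ∈ S) (hm : ∀ a ∈ S, ∀ b ∈ S, a * b ∈ S) (hi : ∀ a ∈ S, a⁻¹ ∈ S)
    (hs : ∀ a ∈ S, ∀ b ∈ S, a ⊔ b ∈ S)
    (hf : ∀ a ∈ S, ∀ b ∈ S,
          f (a * b) = f a * f b ∧ f (a ⊔ b) = f a ⊔ f b ∧ f (a ⊓ b) = f a ⊓ f b)
    (hsurj : ∀ g : G, ∃ a ∈ S, f a = g)
    (E : Finset (FreeGroup ℕ)) (hE : E.Nonempty)
    (hval : ∀ (i : I) (v : ℕ → H i), (1 : H i) ≤ E.sup' hE (fun w => FreeGroup.lift v w))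
    (v : ℕ → G) : (1 : G) ≤ E.sup' hE (fun w => FreeGroup.lift v w) := by
  classical
  choose V hVS hVf using fun n => hsurj (v n)
  have f1 : f 1 = 1 := by
    have := (hf 1 h1 1 h1).1
    rw [mul_one] at this
    exact left_eq_mul.mp this
  have finv : ∀ a ∈ S, f a⁻¹ = (f a)⁻¹ := by
    intro a ha
    have := (hf a⁻¹ (hi a ha) a ha).1
    rw [inv_mul_cancel, f1] at this
    exact eq_inv_of_mul_eq_one_left this.symm
  have key : ∀ w : FreeGroup ℕ, FreeGroup.lift V w ∈ S ∧
      f (FreeGroup.lift V w) = FreeGroup.lift v w := by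
    intro w
    refine FreeGroup.induction_on (C := fun w => FreeGroup.lift V w ∈ S ∧
      f (FreeGroup.lift V w) = FreeGroup.lift v w) w ?_ ?_ ?_ ?_
    · rw [map_one, map_one]; exact ⟨h1, f1⟩
    · intro n
      change FreeGroup.lift V (FreeGroup.of n) ∈ S ∧ f (FreeGroup.lift V (FreeGroup.of n)) =
        FreeGroup.lift v (FreeGroup.of n)
      rw [FreeGroup.lift_apply_of, FreeGroup.lift_apply_of]; exact ⟨hVS n, hVf n⟩
    · intro n ih
      rw [map_inv, map_inv]
      exact ⟨hi _ ih.1, by rw [finv _ ih.1, ih.2]⟩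
    · intro x y hx hy
      rw [map_mul, map_mul]
      exact ⟨hm _ hx.1 _ hy.1, by rw [(hf _ hx.1 _ hy.1).1, hx.2, hy.2]⟩
  have key2 : ∀ (E : Finset (FreeGroup ℕ)) (hE : E.Nonempty),
      E.sup' hE (fun w => FreeGroup.lift V w) ∈ S ∧
      f (E.sup' hE (fun w => FreeGroup.lift V w)) = E.sup' hE (fun w => FreeGroup.lift v w) := by
    intro E hE
    induction hE using Finset.Nonempty.cons_induction with
    | singleton a => simpa using key a
    | cons a s ha hs' ih =>
      rw [Finset.sup'_cons hs', Finset.sup'_cons hs']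
      exact ⟨hs _ (key a).1 _ ih.1, by rw [(hf _ (key a).1 _ ih.1).2.1, (key a).2, ih.2]⟩
  replace key2 := key2 E hE
  have key3 : (1 : ∀ i, H i) ≤ E.sup' hE (fun w => FreeGroup.lift V w) := by
    intro i
    have h5 := hval i (fun n => V n i)
    have e : ∀ w : FreeGroup ℕ, (FreeGroup.lift V w) i = FreeGroup.lift (fun n => V n i) w := by
      intro w
      have := FreeGroup.lift_unique ((Pi.evalMonoidHom H i).comp (FreeGroup.lift V))
        (f := fun n => V n i) (by intro n; simp) (x := w)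
      simpa using this
    have e2 : (E.sup' hE (fun w => FreeGroup.lift V w)) i =
        E.sup' hE (fun w => FreeGroup.lift (fun n => V n i) w) := by
      rw [Finset.sup'_apply]
      exact Finset.sup'_congr hE rfl (fun w _ => e w)
    rw [e2]
    exact h5
  have h4 := (hf 1 h1 _ key2.1).2.1
  rw [sup_eq_right.mpr key3, key2.2, f1] at h4
  rw [h4]
  exact le_sup_left

end Pool.Agent.H870R2.WeakAb
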